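import Pool.Agent.Larson.TimeDomain

set_option autoImplicit false

open MeasureTheory FourierTransform

namespace Pool.Agent.Results.MP_d16bbf_an.TimeDomain

/-- The Hilbert space `L²(ℝ)` of complex valued functions. -/
abbrev L2 : Type := Lp ℂ 2 (volume : Measure ℝ)

/-- `b (j, k)` is the function `x ↦ 2 ^ (j / 2) * ψ (2 ^ j * x - k)`, for all integers `j, k`. -/
def IsSystem (ψ : L2) (b : ℤ × ℤ → L2) : Prop :=
  ∀ j k : ℤ, ∀ᵐ x : ℝ,
    b (j, k) x = (((2 : ℝ) ^ ((j : ℝ) / 2) : ℝ) : ℂ) * ψ ((2 : ℝ) ^ j * x - k)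

/-- `ψ` is an orthonormal dyadic wavelet: the functions `2 ^ (j / 2) * ψ (2 ^ j * x - k)` form an
orthonormal basis of `L²(ℝ)`. -/
def IsWavelet (ψ : L2) : Prop :=
  ∃ b : ℤ × ℤ → L2, IsSystem ψ b ∧ Orthonormal ℂ b ∧
    (Submodule.span ℂ (Set.range b)).topologicalClosure = ⊤

/-- `W` is a wavelet set: it is measurable, and up to null sets both the translates `W + k` and the
dilates `2 ^ j W` (`j`, `k` integers) are partitions of `ℝ`. -/
def IsWaveletSet (W : Set ℝ) : Prop :=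
  MeasurableSet W ∧ (∀ᵐ x : ℝ, ∃! k : ℤ, x - (k : ℝ) ∈ W) ∧
    ∀ᵐ x : ℝ, ∃! j : ℤ, (2 : ℝ) ^ (-j) * x ∈ W

/-- The frequency support of `ψ`: the points where the Fourier transform
`ξ ↦ ∫ ψ(x) exp(-2 π i x ξ) dx` of `ψ`, extended to `L²(ℝ)` by Plancherel, does not vanish. -/
def freqSupport (ψ : L2) : Set ℝ := {ξ : ℝ | (𝓕 ψ : L2) ξ ≠ 0}

/-- For every orthonormal dyadic wavelet there is a wavelet set inside its frequency support. -/
theorem result (ψ : L2) (hψ : IsWavelet ψ) : ∃ W : Set ℝ, IsWaveletSet W ∧ W ⊆ freqSupport ψ := by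
  obtain ⟨b, hb, ho, hc⟩ := hψ
  have hsp : ⊤ ≤ (Submodule.span ℂ (Set.range b)).topologicalClosure := hc.ge
  have hB : ∀ j k : ℤ, ∀ᵐ x : ℝ, (HilbertBasis.mk ho hsp) (j, k) x =
      Pool.Agent.Larson.Tw j k ψ x := by
    intro j k
    rw [HilbertBasis.coe_mk]
    exact hb j k
  obtain ⟨W, hW1, hW2, hW3, hW4⟩ :=
    Pool.Agent.Larson.main_measurable (Pool.Agent.Larson.isW_of_basis ψ _ hB)
  exact ⟨W, ⟨hW1, hW2, hW3⟩, hW4⟩

end Pool.Agent.Results.MP_d16bbf_an.TimeDomain
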